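import Pool.Agent.Lib.MP_2c70cf_lc.Main

set_option autoImplicit false

namespace Pool.Agent.Results.MP_2c70cf_lc.TruthLemmaFails

open Pool.Agent.Lib.MP_2c70cf_lc

/-- There is a countable transitive model of ZF without Power Set over which Friedman's forcing
fails the truth lemma, already for the atomic formula `v₀ = v₁`. -/
theorem result : ∃ ev : Set ZFSet.{0} → ZFSet.{0} → ZFSet.{0}, IsEval ev ∧
    ∃ M : ZFSet.{0}, (M : Set ZFSet.{0}).Countable ∧ M.IsTransitive ∧
      ModelsZFminus (M : Set ZFSet.{0}) ∧ ¬ TruthLemma ev (M : Set ZFSet.{0}) (Fml.eq 0 1) := by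
  obtain ⟨ev, hev⟩ := exists_eval
  obtain ⟨M, hc, hT, hM, h⟩ := main hev
  have := hc.to_subtype
  have e : ((ZFSet.range fun x : M => x.1 : ZFSet.{0}) : Set ZFSet.{0}) = M := by
    rw [ZFSet.coe_range, Subtype.range_coe]
  refine ⟨ev, hev, ZFSet.range fun x : M => x.1, by rwa [e], ?_, by rwa [e], by rwa [e]⟩
  rw [← e] at hT
  exact fun x hx y hy => hT x hx y hy

end Pool.Agent.Results.MP_2c70cf_lc.TruthLemmaFails
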